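import Pool.Agent.Y795.PiH.Stm

/-! # PH10: two anisotropic forms -/

set_option autoImplicit false

namespace Pool.Agent.Y141.PiH

theorem quad : Pool.Agent.Y795.PiH.S_quad := by
  intro p hp hp6 hmod u v huv
  have hp2 : p ≠ 2 := by omega
  have hnz : ∀ n : ℕ, 0 < n → n < 10 ^ 6 → ((n : ℕ) : ZMod p) ≠ 0 := by
    intro n h1 h2 h3
    rw [ZMod.natCast_eq_zero_iff] at h3
    have h4 := Nat.le_of_dvd h1 h3
    omega
  have h2z : (2 : ZMod p) ≠ 0 := by
    have h := hnz 2 (by norm_num) (by norm_num)
    exact_mod_cast h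
  have h44 : (44 : ZMod p) ≠ 0 := by
    have h := hnz 44 (by norm_num) (by norm_num)
    exact_mod_cast h
  have h846 : (84610 : ZMod p) ≠ 0 := by
    have h := hnz 84610 (by norm_num) (by norm_num)
    exact_mod_cast h
  have hno2 : ¬ IsSquare (2 : ZMod p) := by
    rw [ZMod.exists_sq_eq_two_iff hp2]
    omega
  have hno8 : ¬ IsSquare (8 : ZMod p) := by
    rintro ⟨y, hy⟩
    apply hno2
    refine ⟨y / 2, ?_⟩
    rw [div_mul_div_comm, eq_div_iff (mul_ne_zero h2z h2z)]
    linear_combination hy
  have hnoD : ¬ IsSquare (101841 : ZMod p) := by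
    have h1 : jacobiSym ((101841 : ℕ) : ℤ) p = -1 := by
      rw [jacobiSym.quadratic_reciprocity_one_mod_four (by norm_num)
        (Nat.odd_iff.2 (by omega)), jacobiSym.mod_left]
      have h2 : ((p : ℕ) : ℤ) % ((101841 : ℕ) : ℤ) = 37 := by omega
      rw [h2]
      norm_num
    have h3 := ZMod.nonsquare_of_jacobiSym_eq_neg_one h1
    exact_mod_cast h3
  refine ⟨?_, ?_⟩
  · intro h
    by_cases h0 : 126 * u - 2375 * v = 0
    · have h1 : -692 * u + 13044 * v = 0 := by
        have h2 : (-692 * u + 13044 * v) ^ 2 = 0 := by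
          rw [h, h0]
          ring
        exact (pow_eq_zero_iff two_ne_zero).1 h2
      have hu : (44 : ZMod p) * u = 0 := by linear_combination 13044 * h0 + 2375 * h1
      have hv : (44 : ZMod p) * v = 0 := by linear_combination 692 * h0 + 126 * h1
      rcases huv with h3 | h3
      · exact h3 ((mul_eq_zero.1 hu).resolve_left h44)
      · exact h3 ((mul_eq_zero.1 hv).resolve_left h44)
    · apply hno8
      refine ⟨(-692 * u + 13044 * v) / (126 * u - 2375 * v), ?_⟩
      rw [div_mul_div_comm, eq_div_iff (mul_ne_zero h0 h0)]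
      linear_combination -h
  · intro h
    have h1 : (2 * 84610 * u - 3190041 * v) ^ 2 = 101841 * v ^ 2 := by
      linear_combination (4 * 84610) * h
    by_cases hv : v = 0
    · have hu : u ≠ 0 := huv.resolve_right (fun h3 => h3 hv)
      rw [hv] at h
      have h2 : (84610 : ZMod p) * u ^ 2 = 0 := by linear_combination h
      exact hu ((pow_eq_zero_iff two_ne_zero).1 ((mul_eq_zero.1 h2).resolve_left h846))
    · apply hnoD
      refine ⟨(2 * 84610 * u - 3190041 * v) / v, ?_⟩
      rw [div_mul_div_comm, eq_div_iff (mul_ne_zero hv hv)]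
      linear_combination -h1

end Pool.Agent.Y141.PiH
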